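import Pool.Agent.helper68.SF.SpecW

/-!
Project SF (MP_d52931_gt), block sw, module W7A: the terms of the wave at the time `5/2`.
-/

set_option autoImplicit false

namespace SF

open Filter Topology
open scoped ContDiff

noncomputable section

/-- the exponential factor at the time `5/2` -/
def W7A_E : ℝ := Real.exp (2 * (5 / 2))

theorem W7A_E_lo : 143 < W7A_E := by
  have h1 : W7A_E = Real.exp 1 ^ 5 := by
    rw [W7A_E, ← Real.exp_nat_mul]
    norm_num
  rw [h1]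
  have h2 : (2.7 : ℝ) < Real.exp 1 := lt_trans (by norm_num) Real.exp_one_gt_d9
  calc (143 : ℝ) < 2.7 ^ 5 := by norm_num
    _ < Real.exp 1 ^ 5 := pow_lt_pow_left₀ h2 (by norm_num) (by norm_num)

theorem W7A_E_hi : W7A_E < 149 := by
  have h1 : W7A_E = Real.exp 1 ^ 5 := by
    rw [W7A_E, ← Real.exp_nat_mul]
    norm_num
  rw [h1]
  have h2 : Real.exp 1 < 2.719 := lt_trans Real.exp_one_lt_d9 (by norm_num)
  calc Real.exp 1 ^ 5 < 2.719 ^ 5 := pow_lt_pow_left₀ h2 (Real.exp_pos _).le (by norm_num)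
    _ < 149 := by norm_num

/-- the norm form -/
def W7A_N (w : ℤ × ℤ) (x y : ℝ) : ℝ := (w.1 * x + w.2) ^ 2 + (w.1 * y) ^ 2

theorem W7A_YY (w : ℤ × ℤ) (x y : ℝ) : YY w x y = y / W7A_N w x y := rfl

theorem W7A_ip (w : ℤ × ℤ) (x y : ℝ) : ip w w x y = W7A_N w x y := by
  unfold ip W7A_N
  ring

theorem W7A_Nlow (w : ℤ × ℤ) (hw : w.1 ≠ 0) (x y : ℝ) : y ^ 2 ≤ W7A_N w x y := by
  have h1 : (1 : ℝ) ≤ (w.1 : ℝ) ^ 2 := by
    have h2 : (1 : ℤ) ≤ w.1 ^ 2 := by
      have := sq_nonneg w.1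
      have h3 : w.1 ^ 2 ≠ 0 := pow_ne_zero 2 hw
      omega
    exact_mod_cast h2
  unfold W7A_N
  nlinarith [sq_nonneg ((w.1 : ℝ) * x + w.2), sq_nonneg y]

/-- the function `β` of a vector -/
def W7A_be (g : ℝ → ℝ) (w : ℤ × ℤ) (x y : ℝ) : ℝ := b0 g (5 / 2) (YY w x y)

theorem W7A_be_eq (g : ℝ → ℝ) (w : ℤ × ℤ) (x y : ℝ) :
    W7A_be g w x y = √(YY w x y) * g (W7A_E * YY w x y) := rfl

theorem W7A_prof (g : ℝ → ℝ) (hg : Prof g) (a : ℝ) (ha : a < 1 ∨ 3 < a) :
    g a = 0 ∧ deriv g a = 0 := by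
  rcases ha with ha | ha
  · refine ⟨hg.lo a ha.le, ?_⟩
    have h1 : g =ᶠ[𝓝 a] fun _ => 0 := by
      filter_upwards [gt_mem_nhds ha] with b hb
      exact hg.lo b hb.le
    rw [h1.deriv_eq]
    simp
  · refine ⟨hg.hi a ha.le, ?_⟩
    have h1 : g =ᶠ[𝓝 a] fun _ => 0 := by
      filter_upwards [lt_mem_nhds ha] with b hb
      exact hg.hi b hb.le
    rw [h1.deriv_eq]
    simp

/-- derivatives along a line -/
theorem W7A_line (g : ℝ → ℝ) (hg : Prof g) (B : ℝ) (hB : Bd 4 B g) (Y : ℝ → ℝ) (Y' t R : ℝ)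
    (hY : HasDerivAt Y Y' t) (hpos : 0 < Y t) (hR : |Y'| ≤ R) :
    ∃ d, HasDerivAt (fun u => √(Y u) * g (W7A_E * Y u)) d t ∧
      (¬ (1 ≤ W7A_E * Y t ∧ W7A_E * Y t ≤ 3) → d = 0) ∧ |d| ≤ 156 * B * R := by
  have hE1 := W7A_E_lo
  have hE2 := W7A_E_hi
  have hgd : HasDerivAt g (deriv g (W7A_E * Y t)) (W7A_E * Y t) :=
    ((hg.smooth.differentiable (by simp)) _).hasDerivAt
  have h1 : HasDerivAt (fun u => √(Y u)) (Y' / (2 * √(Y t))) t := hY.sqrt hpos.ne'
  have h2 : HasDerivAt (fun u => g (W7A_E * Y u)) (deriv g (W7A_E * Y t) * (W7A_E * Y')) t :=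
    hgd.comp t (hY.const_mul _)
  have h0 : |g (W7A_E * Y t)| ≤ B := by
    have := hB 0 (by norm_num) (W7A_E * Y t)
    simpa using this
  have h0' : |deriv g (W7A_E * Y t)| ≤ B := by
    have := hB 1 (by norm_num) (W7A_E * Y t)
    rwa [iteratedDeriv_one] at this
  have hB0 : 0 ≤ B := (abs_nonneg _).trans h0
  have hR0 : 0 ≤ R := (abs_nonneg _).trans hR
  refine ⟨_, h1.mul h2, ?_, ?_⟩
  · intro hn
    have h3 : W7A_E * Y t < 1 ∨ 3 < W7A_E * Y t := by
      by_contra hcon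
      push Not at hcon
      exact hn hcon
    obtain ⟨e1, e2⟩ := W7A_prof g hg _ h3
    rw [e1, e2]
    ring
  · by_cases hn : 1 ≤ W7A_E * Y t ∧ W7A_E * Y t ≤ 3
    · obtain ⟨hn1, hn2⟩ := hn
      have hYlo : (1 / 13 : ℝ) ^ 2 ≤ Y t := by
        have : W7A_E * Y t ≤ 149 * Y t := mul_le_mul_of_nonneg_right hE2.le hpos.le
        nlinarith
      have hYhi : Y t ≤ 1 := by nlinarith
      have hs1 : 1 / 13 ≤ √(Y t) := Real.le_sqrt_of_sq_le hYlo
      have hs2 : √(Y t) ≤ 1 := Real.sqrt_le_one.2 hYhi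
      have hs0 : 0 < √(Y t) := Real.sqrt_pos.2 hpos
      have e1 : |Y' / (2 * √(Y t)) * g (W7A_E * Y t)| ≤ 13 / 2 * R * B := by
        rw [abs_mul, abs_div, abs_of_pos (show (0 : ℝ) < 2 * √(Y t) by positivity)]
        have e2 : |Y'| / (2 * √(Y t)) ≤ 13 / 2 * R := by
          rw [div_le_iff₀ (by positivity)]
          nlinarith [abs_nonneg Y']
        exact mul_le_mul e2 h0 (abs_nonneg _) (by positivity)
      have e3 : |√(Y t) * (deriv g (W7A_E * Y t) * (W7A_E * Y'))| ≤ 149 * B * R := by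
        rw [abs_mul, abs_mul, abs_mul, abs_of_pos hs0, abs_of_pos (show 0 < W7A_E by linarith)]
        have e4 : W7A_E * |Y'| ≤ 149 * R :=
          mul_le_mul hE2.le hR (abs_nonneg _) (by norm_num)
        have e5 : |deriv g (W7A_E * Y t)| * (W7A_E * |Y'|) ≤ B * (149 * R) :=
          mul_le_mul h0' e4 (by positivity) hB0
        have e6 : √(Y t) * (|deriv g (W7A_E * Y t)| * (W7A_E * |Y'|)) ≤ 1 * (B * (149 * R)) :=
          mul_le_mul hs2 e5 (by positivity) (by norm_num)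
        linarith
      calc |Y' / (2 * √(Y t)) * g (W7A_E * Y t) + √(Y t) * (deriv g (W7A_E * Y t) * (W7A_E * Y'))|
          ≤ |Y' / (2 * √(Y t)) * g (W7A_E * Y t)| +
            |√(Y t) * (deriv g (W7A_E * Y t) * (W7A_E * Y'))| := abs_add_le _ _
        _ ≤ 13 / 2 * R * B + 149 * B * R := add_le_add e1 e3
        _ ≤ 156 * B * R := by nlinarith [mul_nonneg hB0 hR0]
    · have h3 : W7A_E * Y t < 1 ∨ 3 < W7A_E * Y t := by
        by_contra hcon
        push Not at hcon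
        exact hn hcon
      obtain ⟨e1, e2⟩ := W7A_prof g hg _ h3
      rw [e1, e2]
      simp only [mul_zero, zero_mul, add_zero, abs_zero]
      positivity

/-- the bounds for one vector -/
theorem W7A_be_bd (g : ℝ → ℝ) (hg : Prof g) (B : ℝ) (hB : Bd 4 B g) (w : ℤ × ℤ) (x y : ℝ)
    (hy : 0 < y) (hN : 0 < W7A_N w x y) :
    ∃ dx dy, HasDerivAt (fun t => W7A_be g w t y) dx x ∧ HasDerivAt (fun t => W7A_be g w x t) dy y ∧
      (¬ (1 ≤ W7A_E * YY w x y ∧ W7A_E * YY w x y ≤ 3) → W7A_be g w x y = 0 ∧ dx = 0 ∧ dy = 0) ∧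
      (1 ≤ W7A_E * YY w x y ∧ W7A_E * YY w x y ≤ 3 →
        |W7A_be g w x y| ≤ B ∧ |dx| ≤ 10 * B / y ∧ |dy| ≤ 10 * B / y) := by
  have hE1 := W7A_E_lo
  have hE2 := W7A_E_hi
  have h0 : |g (W7A_E * YY w x y)| ≤ B := by
    have := hB 0 (by norm_num) (W7A_E * YY w x y)
    simpa using this
  have hB0 : 0 ≤ B := (abs_nonneg _).trans h0
  have hYpos : 0 < YY w x y := by rw [W7A_YY]; exact div_pos hy hN
  set N := W7A_N w x y with hNdef
  -- the derivatives of Y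
  have hx : HasDerivAt (fun t => YY w t y)
      (-(y * (2 * (w.1 * x + w.2) * w.1)) / N ^ 2) x := by
    have e1 : HasDerivAt (fun t : ℝ => (w.1 * t + w.2) ^ 2 + (w.1 * y) ^ 2)
        (2 * (w.1 * x + w.2) * w.1) x := by
      have e2 : HasDerivAt (fun t : ℝ => (w.1 : ℝ) * t + w.2) w.1 x := by
        simpa using ((hasDerivAt_id x).const_mul (w.1 : ℝ)).add_const (w.2 : ℝ)
      have e3 := (e2.pow 2).add_const ((w.1 * y : ℝ) ^ 2)
      simpa using e3
    have e4 := (hasDerivAt_const x y).div e1 (by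
      show W7A_N w x y ≠ 0
      exact hN.ne')
    have e5 : (fun t => YY w t y) = (fun _ => y) / fun t : ℝ => (w.1 * t + w.2) ^ 2 + (w.1 * y) ^ 2 := by
      funext t
      rfl
    rw [e5]
    refine e4.congr_deriv ?_
    rw [hNdef]
    unfold W7A_N
    ring
  have hy' : HasDerivAt (fun t => YY w x t) ((N - y * (2 * (w.1 * y) * w.1)) / N ^ 2) y := by
    have e1 : HasDerivAt (fun t : ℝ => (w.1 * x + w.2) ^ 2 + (w.1 * t) ^ 2)
        (2 * (w.1 * y) * w.1) y := by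
      have e2 : HasDerivAt (fun t : ℝ => (w.1 : ℝ) * t) w.1 y := by
        simpa using ((hasDerivAt_id y).const_mul (w.1 : ℝ))
      have e3 := (e2.pow 2).const_add ((w.1 * x + w.2 : ℝ) ^ 2)
      simpa using e3
    have e4 := (hasDerivAt_id y).div e1 (by
      show W7A_N w x y ≠ 0
      exact hN.ne')
    have e5 : (fun t => YY w x t) = id / fun t : ℝ => (w.1 * x + w.2) ^ 2 + (w.1 * t) ^ 2 := by
      funext t
      rfl
    rw [e5]
    refine e4.congr_deriv ?_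
    rw [hNdef]
    unfold W7A_N
    simp only [id]
    ring
  have hNe : N = (w.1 * x + w.2) ^ 2 + (w.1 * y) ^ 2 := rfl
  have hbx : |-(y * (2 * (w.1 * x + w.2) * w.1)) / N ^ 2| ≤ 3 / N := by
    rw [abs_div, abs_neg, abs_of_pos (show 0 < N ^ 2 by positivity), div_le_div_iff₀ (by positivity) hN]
    have e1 : |y * (2 * (w.1 * x + w.2) * w.1)| ≤ N := by
      rw [abs_le, hNe]
      constructor <;> nlinarith [sq_nonneg ((w.1 * x + w.2 : ℝ) + w.1 * y),
        sq_nonneg ((w.1 * x + w.2 : ℝ) - w.1 * y)]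
    nlinarith [mul_le_mul_of_nonneg_right e1 hN.le, hN]
  have hby : |(N - y * (2 * (w.1 * y) * w.1)) / N ^ 2| ≤ 3 / N := by
    rw [abs_div, abs_of_pos (show 0 < N ^ 2 by positivity), div_le_div_iff₀ (by positivity) hN]
    have e1 : |N - y * (2 * (w.1 * y) * w.1)| ≤ 3 * N := by
      rw [abs_le, hNe]
      constructor <;> nlinarith [sq_nonneg (w.1 * x + w.2 : ℝ), sq_nonneg (w.1 * y : ℝ)]
    nlinarith [mul_le_mul_of_nonneg_right e1 hN.le, hN]
  obtain ⟨dx, hdx, hdx0, hdxb⟩ := W7A_line g hg B hB (fun t => YY w t y) _ x (3 / N) hx hYpos hbx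
  obtain ⟨dy, hdy, hdy0, hdyb⟩ := W7A_line g hg B hB (fun t => YY w x t) _ y (3 / N) hy' hYpos hby
  refine ⟨dx, dy, hdx, hdy, ?_, ?_⟩
  · intro hn
    refine ⟨?_, hdx0 hn, hdy0 hn⟩
    have h3 : W7A_E * YY w x y < 1 ∨ 3 < W7A_E * YY w x y := by
      by_contra hcon
      push Not at hcon
      exact hn hcon
    rw [W7A_be_eq, (W7A_prof g hg _ h3).1, mul_zero]
  · rintro ⟨hn1, hn2⟩
    have hYhi : YY w x y ≤ 1 := by nlinarith
    have hs2 : √(YY w x y) ≤ 1 := Real.sqrt_le_one.2 hYhi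
    have h3N : 156 * B * (3 / N) ≤ 10 * B / y := by
      have e1 : YY w x y = y / N := rfl
      have e2 : 1 / N = YY w x y / y := by
        rw [e1]
        field_simp
      have e3 : YY w x y ≤ 3 / 143 := by
        rw [le_div_iff₀ (by norm_num)]
        nlinarith
      have e4 : 156 * B * (3 / N) = 468 * B * (YY w x y / y) := by rw [← e2]; ring
      rw [e4, mul_div_assoc', div_le_div_iff_of_pos_right hy]
      nlinarith
    refine ⟨?_, hdxb.trans h3N, hdyb.trans h3N⟩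
    rw [W7A_be_eq, abs_mul, abs_of_nonneg (Real.sqrt_nonneg _)]
    calc √(YY w x y) * |g (W7A_E * YY w x y)| ≤ 1 * B :=
          mul_le_mul hs2 h0 (abs_nonneg _) (by norm_num)
      _ = B := one_mul B


/-- the integer of an index -/
def W7A_m (j : ℤ × Fin 4) : ℤ := 5 * j.1 + (j.2 : ℕ) + 1

theorem W7A_m_inj : Function.Injective W7A_m := by
  rintro ⟨a, i⟩ ⟨b, j⟩ h
  unfold W7A_m at h
  have hi := i.2
  have hj := j.2
  simp only at h
  have h1 : a = b := by omega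
  have h2 : (i : ℕ) = j := by omega
  rw [h1, Fin.ext h2]

/-- the vector of an integer -/
def W7A_u (v : ℤ × ℤ) (m : ℤ) : ℤ × ℤ := (5 : ℤ) • cpl v + m • v

/-- the signs of the character -/
def W7A_e : Fin 4 → ℝ := ![1, -1, -1, 1]

theorem W7A_e_abs (i : Fin 4) : |W7A_e i| = 1 := by
  fin_cases i <;> simp [W7A_e]

theorem W7A_cont (v : ℤ × ℤ) (x y : ℝ) (hN : 0 < W7A_N v x y) :
    ContinuousAt (fun p : ℝ × ℝ => XX v p.1 p.2) (x, y) ∧
    ContinuousAt (fun p : ℝ × ℝ => YY v p.1 p.2) (x, y) := by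
  have hd : ContinuousAt (fun p : ℝ × ℝ => W7A_N v p.1 p.2) (x, y) := by
    unfold W7A_N
    fun_prop
  constructor
  · have h1 : ContinuousAt (fun p : ℝ × ℝ => ((Int.gcdB v.1 v.2 : ℝ) * p.1 + -(Int.gcdA v.1 v.2 : ℝ)) *
        (v.1 * p.1 + v.2) + Int.gcdB v.1 v.2 * v.1 * p.2 ^ 2) (x, y) := by
      fun_prop
    exact h1.div hd hN.ne'
  · have h1 : ContinuousAt (fun p : ℝ × ℝ => p.2) (x, y) := by fun_prop
    exact h1.div hd hN.ne'

/-- the sign factor is locally constant where it matters -/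
theorem W7A_loc (hMG : MG_stmt) (g : ℝ → ℝ) (hg : Prof g) (v : ℤ × ℤ) (hv : v ∈ Pv)
    (hv1 : v.1 ≠ 0) (x y : ℝ) (hy : 4 / 5 < y) (x0 : ℝ) (m : ℤ) :
    ∀ᶠ p : ℝ × ℝ in 𝓝 (x, y),
      1 / 2 * (Real.sign (x0 + m / 5) - Real.sign (XX v p.1 p.2 + m / 5)) *
        W7A_be g (W7A_u v m) p.1 p.2 =
      (if XX v x y + m / 5 = 0 then 0 else
        1 / 2 * (Real.sign (x0 + m / 5) - Real.sign (XX v x y + m / 5))) *
        W7A_be g (W7A_u v m) p.1 p.2 := by
  have hy0 : 0 < y := by linarith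
  have hE1 := W7A_E_lo
  have hNv : 0 < W7A_N v x y := lt_of_lt_of_le (by positivity) (W7A_Nlow v hv1 x y)
  have hc := (W7A_cont v x y hNv).1
  have hc2 : ContinuousAt (fun p : ℝ × ℝ => XX v p.1 p.2 + (m : ℝ) / 5) (x, y) :=
    hc.add continuousAt_const
  rcases lt_trichotomy (XX v x y + m / 5) 0 with h | h | h
  · rw [if_neg h.ne]
    have h1 : ∀ᶠ p : ℝ × ℝ in 𝓝 (x, y), XX v p.1 p.2 + (m : ℝ) / 5 < 0 :=
      hc2.eventually (gt_mem_nhds h)
    filter_upwards [h1] with p hp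
    rw [Real.sign_of_neg hp, Real.sign_of_neg h]
  · rw [if_pos h]
    -- the argument of g is larger than 3
    obtain ⟨g1, -, g3, g4, -, g6⟩ := hMG
    have h2 : ip (W7A_u v m) v x y = 0 := by
      have h3 := g4 v hv x y hy0 m
      rw [h] at h3
      have h4 := g3 v hv x y hy0
      have h5 := h3.symm
      rw [div_eq_zero_iff] at h5
      rcases h5 with h5 | h5
      · exact h5
      · exfalso
        have : (5 : ℝ) * ip v v x y ≠ 0 := by positivity
        exact this h5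
    have hdt : (dt (W7A_u v m) v : ℝ) = 5 := by
      have h3 := g1 v hv
      have h4 : dt (W7A_u v m) v = 5 := by
        unfold W7A_u dt at *
        simp only [Prod.fst_add, Prod.snd_add, Prod.smul_fst, Prod.smul_snd, smul_eq_mul] at *
        linear_combination 5 * h3
      rw [h4]
      norm_num
    have h6 := g6 (W7A_u v m) v x y
    rw [h2, hdt, W7A_ip, W7A_ip] at h6
    have hNu : 0 < W7A_N (W7A_u v m) x y := by
      have h7 : 0 < W7A_N (W7A_u v m) x y * W7A_N v x y := by rw [h6]; positivity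
      exact pos_of_mul_pos_left h7 hNv.le
    have h8 : 3 < W7A_E * YY (W7A_u v m) x y := by
      rw [W7A_YY, mul_div_assoc', lt_div_iff₀ hNu]
      have h9 := W7A_Nlow v hv1 x y
      have h10 : W7A_N (W7A_u v m) x y * y ^ 2 ≤ 25 * y ^ 2 := by
        calc W7A_N (W7A_u v m) x y * y ^ 2 ≤ W7A_N (W7A_u v m) x y * W7A_N v x y :=
              mul_le_mul_of_nonneg_left h9 hNu.le
          _ = 25 * y ^ 2 := by rw [h6]; ring
      have h11 : W7A_N (W7A_u v m) x y ≤ 25 := le_of_mul_le_mul_right h10 (by positivity)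
      nlinarith
    have h12 : ContinuousAt (fun p : ℝ × ℝ => W7A_E * YY (W7A_u v m) p.1 p.2) (x, y) :=
      continuousAt_const.mul (W7A_cont _ x y hNu).2
    have h13 : ∀ᶠ p : ℝ × ℝ in 𝓝 (x, y), 3 < W7A_E * YY (W7A_u v m) p.1 p.2 :=
      h12.eventually (lt_mem_nhds h8)
    filter_upwards [h13] with p hp
    rw [W7A_be_eq, (W7A_prof g hg _ (Or.inr hp)).1]
    ring
  · rw [if_neg h.ne']
    have h1 : ∀ᶠ p : ℝ × ℝ in 𝓝 (x, y), 0 < XX v p.1 p.2 + (m : ℝ) / 5 :=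
      hc2.eventually (lt_mem_nhds h)
    filter_upwards [h1] with p hp
    rw [Real.sign_of_pos hp, Real.sign_of_pos h]

/-- one block -/
theorem W7A_blk (hRH : RH_stmt) (hMH : MH_stmt) (g : ℝ → ℝ) (hg : Prof g) (v : ℤ × ℤ)
    (hv : v ∈ Pv) (hv1 : v.1 ≠ 0) (x y : ℝ) (hy : 4 / 5 < y) (x0 : ℝ) (k : ℤ) :
    Bk g (5 / 2) (XX v x y) (YY v x y) x0 k = ∑ i : Fin 4, W7A_e i *
      (1 / 2 * (Real.sign (x0 + W7A_m (k, i) / 5) - Real.sign (XX v x y + W7A_m (k, i) / 5)) *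
        W7A_be g (W7A_u v (W7A_m (k, i))) x y) := by
  have hy0 : 0 < y := by linarith
  have hE1 := W7A_E_lo
  have hNv : 0 < W7A_N v x y := lt_of_lt_of_le (by positivity) (W7A_Nlow v hv1 x y)
  have hY : 0 < YY v x y := by rw [W7A_YY]; exact div_pos hy0 hNv
  have hA : 3 ≤ Real.exp (2 * (5 / 2)) / (25 * YY v x y) := by
    rw [le_div_iff₀ (by positivity)]
    have h1 : YY v x y ≤ 5 / 4 := by
      rw [W7A_YY, div_le_iff₀ hNv]
      have := W7A_Nlow v hv1 x y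
      nlinarith
    have h2 : (143 : ℝ) < Real.exp (2 * (5 / 2)) := hE1
    linarith
  rw [hRH g hg (5 / 2) (XX v x y) (YY v x y) x0 k hY hA]
  have hb : ∀ i : Fin 4, b1 g (5 / 2) (XX v x y + W7A_m (k, i) / 5) (YY v x y) =
      W7A_be g (W7A_u v (W7A_m (k, i))) x y := fun i =>
    hMH g hg v hv (W7A_m (k, i)) (5 / 2) x y hy0
  unfold c5
  simp only [Fin.sum_univ_four, ← hb]
  have e0 : ∀ z : ℝ, z + (k : ℝ) + 1 / 5 = z + (W7A_m (k, 0) : ℝ) / 5 := by
    intro z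
    simp only [W7A_m, Fin.val_zero]
    push_cast
    ring
  have e1 : ∀ z : ℝ, z + (k : ℝ) + 2 / 5 = z + (W7A_m (k, 1) : ℝ) / 5 := by
    intro z
    simp only [W7A_m, Fin.val_one]
    push_cast
    ring
  have e2 : ∀ z : ℝ, z + (k : ℝ) + 3 / 5 = z + (W7A_m (k, 2) : ℝ) / 5 := by
    intro z
    simp only [W7A_m, Fin.val_two]
    push_cast
    ring
  have e3 : ∀ z : ℝ, z + (k : ℝ) + 4 / 5 = z + (W7A_m (k, 3) : ℝ) / 5 := by
    intro z
    have h3 : ((3 : Fin 4) : ℕ) = 3 := rfl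
    simp only [W7A_m, h3]
    push_cast
    ring
  rw [e0, e0, e1, e1, e2, e2, e3, e3]
  simp only [W7A_e, Matrix.cons_val_zero, Matrix.cons_val_one, Matrix.cons_val_two,
    Matrix.cons_val_three, Matrix.head_cons, Matrix.tail_cons]
  simp
  ring

/-- local representation by a finite sum -/
theorem W7A_rep (hRH : RH_stmt) (hMH : MH_stmt) (hMG : MG_stmt) (hFV : FV_stmt) (g : ℝ → ℝ)
    (hg : Prof g) (v : ℤ × ℤ) (hv : v ∈ Pv) (hv1 : v.1 ≠ 0) (x y : ℝ) (hy : 4 / 5 < y) :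
    ∃ (J : Finset (ℤ × Fin 4)) (c : ℤ × Fin 4 → ℝ), (∀ j, |c j| ≤ 1) ∧
      (∀ j, c j ≠ 0 → Real.sign (XX v 0 1 + W7A_m j / 5) ≠ Real.sign (XX v x y + W7A_m j / 5)) ∧
      ∀ᶠ p : ℝ × ℝ in 𝓝 (x, y), FF g v (5 / 2) p.1 p.2 =
        psi (XX v 0 1) * W7A_be g v p.1 p.2 +
          ∑ j ∈ J, c j * W7A_be g (W7A_u v (W7A_m j)) p.1 p.2 := by
  classical
  have hy0 : 0 < y := by linarith
  have hE1 := W7A_E_lo
  -- the box
  set T : ℝ := |x| + y + 2 with hT
  have hT0 : 2 ≤ T := by have := abs_nonneg x; linarith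
  have hbox : ∀ᶠ p : ℝ × ℝ in 𝓝 (x, y), 4 / 5 < p.2 ∧ Bx T p.1 p.2 := by
    have c1 : ContinuousAt (fun p : ℝ × ℝ => p.2) (x, y) := by fun_prop
    have c2 : ContinuousAt (fun p : ℝ × ℝ => |p.1|) (x, y) := by fun_prop
    have a1 : ∀ᶠ p : ℝ × ℝ in 𝓝 (x, y), 4 / 5 < p.2 := c1.eventually (lt_mem_nhds hy)
    have a2 : ∀ᶠ p : ℝ × ℝ in 𝓝 (x, y), p.2 < T :=
      c1.eventually (gt_mem_nhds (by have := abs_nonneg x; show y < T; linarith))
    have a3 : ∀ᶠ p : ℝ × ℝ in 𝓝 (x, y), |p.1| < T :=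
      c2.eventually (gt_mem_nhds (by show |x| < T; linarith))
    filter_upwards [a1, a2, a3] with p h1 h2 h3
    refine ⟨h1, h3.le, ?_, h2.le⟩
    rw [div_le_iff₀ (by linarith)]
    nlinarith
  -- the finite set of integers
  have hW := hFV T (W7A_E * T) (by linarith)
  have hinj : Function.Injective (W7A_u v) := by
    intro m m' h
    have h1 := congrArg Prod.fst h
    simp only [W7A_u, Prod.fst_add, Prod.smul_fst, smul_eq_mul] at h1
    exact mul_right_cancel₀ hv1 (add_left_cancel h1)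
  have hM : ((W7A_u v) ⁻¹' {w : ℤ × ℤ | ∃ x y : ℝ, Bx T x y ∧ ip w w x y ≤ W7A_E * T}).Finite :=
    hW.preimage hinj.injOn
  set S : Finset ℤ := hM.toFinset.image (fun m => m / 5) with hS
  have hout : ∀ p : ℝ × ℝ, Bx T p.1 p.2 → ∀ k : ℤ, k ∉ S → ∀ i : Fin 4,
      W7A_be g (W7A_u v (W7A_m (k, i))) p.1 p.2 = 0 := by
    intro p hp k hk i
    have h1 : W7A_m (k, i) ∉ hM.toFinset := by
      intro hmem
      apply hk
      rw [hS, Finset.mem_image]
      refine ⟨_, hmem, ?_⟩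
      have hi := i.2
      unfold W7A_m
      simp only
      omega
    rw [Set.Finite.mem_toFinset] at h1
    have h2 : W7A_E * T < W7A_N (W7A_u v (W7A_m (k, i))) p.1 p.2 := by
      rw [← W7A_ip]
      by_contra hcon
      push Not at hcon
      exact h1 ⟨p.1, p.2, hp, hcon⟩
    have hp2 : 0 < p.2 := lt_of_lt_of_le (by positivity) hp.2.1
    have h3 : W7A_E * YY (W7A_u v (W7A_m (k, i))) p.1 p.2 < 1 := by
      rw [W7A_YY, mul_div_assoc', div_lt_one (lt_trans (by positivity) h2)]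
      refine lt_of_le_of_lt ?_ h2
      exact mul_le_mul_of_nonneg_left hp.2.2 (by linarith)
    rw [W7A_be_eq, (W7A_prof g hg _ (Or.inl h3)).1, mul_zero]
  set J : Finset (ℤ × Fin 4) := S ×ˢ Finset.univ with hJ
  set c : ℤ × Fin 4 → ℝ := fun j => W7A_e j.2 * (if XX v x y + W7A_m j / 5 = 0 then 0 else
    1 / 2 * (Real.sign (XX v 0 1 + W7A_m j / 5) - Real.sign (XX v x y + W7A_m j / 5))) with hc
  have hsg : ∀ z : ℝ, |Real.sign z| ≤ 1 := by
    intro z
    rcases Real.sign_apply_eq z with h | h | h <;> rw [h] <;> norm_num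
  refine ⟨J, c, ?_, ?_, ?_⟩
  · intro j
    rw [hc]
    simp only
    rw [abs_mul, W7A_e_abs, one_mul]
    split_ifs
    · simp
    · have h1 := abs_le.1 (hsg (XX v 0 1 + W7A_m j / 5))
      have h2 := abs_le.1 (hsg (XX v x y + W7A_m j / 5))
      rw [abs_le]
      constructor <;> linarith
  · intro j hj heq
    apply hj
    rw [hc]
    simp only
    split_ifs
    · simp
    · rw [heq]
      ring
  · have hloc : ∀ᶠ p : ℝ × ℝ in 𝓝 (x, y), ∀ j ∈ J,
        1 / 2 * (Real.sign (XX v 0 1 + W7A_m j / 5) - Real.sign (XX v p.1 p.2 + W7A_m j / 5)) *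
          W7A_be g (W7A_u v (W7A_m j)) p.1 p.2 =
        (if XX v x y + W7A_m j / 5 = 0 then 0 else
          1 / 2 * (Real.sign (XX v 0 1 + W7A_m j / 5) - Real.sign (XX v x y + W7A_m j / 5))) *
          W7A_be g (W7A_u v (W7A_m j)) p.1 p.2 := by
      rw [Filter.eventually_all_finset]
      intro j _
      exact W7A_loc hMG g hg v hv hv1 x y hy (XX v 0 1) (W7A_m j)
    filter_upwards [hbox, hloc] with p hp hl
    have h1 : FF g v (5 / 2) p.1 p.2 = psi (XX v 0 1) * W7A_be g v p.1 p.2 +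
        RR g (5 / 2) (XX v p.1 p.2) (YY v p.1 p.2) (XX v 0 1) := rfl
    rw [h1]
    congr 1
    have h2 : RR g (5 / 2) (XX v p.1 p.2) (YY v p.1 p.2) (XX v 0 1) =
        ∑' k : ℤ, Bk g (5 / 2) (XX v p.1 p.2) (YY v p.1 p.2) (XX v 0 1) k := rfl
    rw [h2, tsum_eq_sum (s := S) (by
      intro k hk
      rw [W7A_blk hRH hMH g hg v hv hv1 p.1 p.2 hp.1]
      refine Finset.sum_eq_zero fun i _ => ?_
      rw [hout p hp.2 k hk i]
      ring), hJ, Finset.sum_product]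
    refine Finset.sum_congr rfl fun k hk => ?_
    rw [W7A_blk hRH hMH g hg v hv hv1 p.1 p.2 hp.1]
    refine Finset.sum_congr rfl fun i _ => ?_
    have h3 := hl (k, i) (by rw [hJ]; exact Finset.mem_product.2 ⟨hk, Finset.mem_univ _⟩)
    rw [h3, hc]
    ring

/-- lattice points on a line in a disc -/
theorem W7A_gap (v : ℤ × ℤ) (hv1 : v.1 ≠ 0) (x y : ℝ) (hy : 4 / 5 < y) (m m' : ℤ)
    (h : W7A_N (W7A_u v m) x y ≤ W7A_E * y) (h' : W7A_N (W7A_u v m') x y ≤ W7A_E * y) :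
    |m - m'| < 28 := by
  have hE2 := W7A_E_hi
  have h1 := W7A_Nlow v hv1 x y
  have h2 : ((m : ℝ) - m') ^ 2 * W7A_N v x y ≤
      2 * (W7A_N (W7A_u v m) x y + W7A_N (W7A_u v m') x y) := by
    unfold W7A_N W7A_u
    simp only [Prod.fst_add, Prod.snd_add, Prod.smul_fst, Prod.smul_snd, smul_eq_mul]
    push_cast
    nlinarith [sq_nonneg (((5 * (cpl v).1 + m * v.1 : ℝ) * x + (5 * (cpl v).2 + m * v.2)) +
        ((5 * (cpl v).1 + m' * v.1) * x + (5 * (cpl v).2 + m' * v.2))),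
      sq_nonneg ((5 * (cpl v).1 + m * v.1 : ℝ) * y + (5 * (cpl v).1 + m' * v.1) * y)]
  have h3 : ((m : ℝ) - m') ^ 2 * y ^ 2 ≤ 4 * W7A_E * y := by
    have : ((m : ℝ) - m') ^ 2 * y ^ 2 ≤ ((m : ℝ) - m') ^ 2 * W7A_N v x y :=
      mul_le_mul_of_nonneg_left h1 (sq_nonneg _)
    linarith
  have h4 : ((m : ℝ) - m') ^ 2 * y ≤ 4 * W7A_E := by
    have : (((m : ℝ) - m') ^ 2 * y) * y ≤ (4 * W7A_E) * y := by nlinarith
    exact le_of_mul_le_mul_right this (by linarith)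
  have h5 : ((m : ℝ) - m') ^ 2 < 784 := by nlinarith [sq_nonneg ((m : ℝ) - m')]
  have h6 : (m - m') ^ 2 < 28 ^ 2 := by
    have : (((m - m') ^ 2 : ℤ) : ℝ) < ((28 ^ 2 : ℤ) : ℝ) := by push_cast; norm_num; exact h5
    exact_mod_cast this
  exact abs_lt_of_sq_lt_sq h6 (by norm_num)

/-- relevance -/
def W7A_R (w : ℤ × ℤ) (x y : ℝ) : Prop := 1 ≤ W7A_E * YY w x y ∧ W7A_E * YY w x y ≤ 3

theorem W7A_dt (hMG : MG_stmt) (v : ℤ × ℤ) (hv : v ∈ Pv) (m : ℤ) : dt (W7A_u v m) v = 5 := by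
  have h3 := hMG.1 v hv
  unfold W7A_u dt at *
  simp only [Prod.fst_add, Prod.snd_add, Prod.smul_fst, Prod.smul_snd, smul_eq_mul] at *
  linear_combination 5 * h3

theorem W7A_upos (hMG : MG_stmt) (v : ℤ × ℤ) (hv : v ∈ Pv) (hv1 : v.1 ≠ 0) (x y : ℝ) (hy : 0 < y)
    (m : ℤ) : 0 < W7A_N (W7A_u v m) x y := by
  have hNv : 0 < W7A_N v x y := lt_of_lt_of_le (by positivity) (W7A_Nlow v hv1 x y)
  have h6 := hMG.2.2.2.2.2 (W7A_u v m) v x y
  rw [W7A_dt hMG v hv m, W7A_ip, W7A_ip] at h6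
  have h7 : 0 < W7A_N (W7A_u v m) x y * W7A_N v x y := by
    rw [h6]
    push_cast
    have := sq_nonneg (ip (W7A_u v m) v x y)
    positivity
  exact pos_of_mul_pos_left h7 hNv.le

/-- relevant vectors are short -/
theorem W7A_Rle (w : ℤ × ℤ) (x y : ℝ) (hN : 0 < W7A_N w x y) (h : W7A_R w x y) :
    W7A_N w x y ≤ W7A_E * y ∧ W7A_E * y ≤ 3 * W7A_N w x y := by
  obtain ⟨h1, h2⟩ := h
  rw [W7A_YY, mul_div_assoc'] at h1 h2
  rw [le_div_iff₀ hN] at h1
  rw [div_le_iff₀ hN] at h2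
  exact ⟨by linarith, h2⟩

theorem W7A_Ry (w : ℤ × ℤ) (hw : w.1 ≠ 0) (x y : ℝ) (hy : 0 < y) (hN : 0 < W7A_N w x y)
    (h : W7A_R w x y) : y ≤ 149 := by
  have hE2 := W7A_E_hi
  have h1 := (W7A_Rle w x y hN h).1
  have h2 := W7A_Nlow w hw x y
  have h3 : y * y ≤ W7A_E * y := by nlinarith
  have := le_of_mul_le_mul_right h3 hy
  linarith

theorem W7A_Ruy (hMG : MG_stmt) (v : ℤ × ℤ) (hv : v ∈ Pv) (hv1 : v.1 ≠ 0) (x y : ℝ)
    (hy : 4 / 5 < y) (m : ℤ) (h : W7A_R (W7A_u v m) x y) : y ≤ 149 := by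
  have hy0 : 0 < y := by linarith
  have hE1 := W7A_E_lo
  have hN := W7A_upos hMG v hv hv1 x y hy0 m
  by_cases h0 : (W7A_u v m).1 = 0
  · exfalso
    have h1 := W7A_dt hMG v hv m
    unfold dt at h1
    rw [h0, zero_mul, zero_sub] at h1
    have h2 : (W7A_u v m).2 ^ 2 ≤ 25 := by
      have h3 : 1 ≤ v.1 ^ 2 := by
        have := sq_nonneg v.1
        have h3 : v.1 ^ 2 ≠ 0 := pow_ne_zero 2 hv1
        omega
      have h4 : (W7A_u v m).2 ^ 2 * v.1 ^ 2 = 25 := by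
        have : ((W7A_u v m).2 * v.1) ^ 2 = 25 := by
          have h5 : (W7A_u v m).2 * v.1 = -5 := by omega
          rw [h5]
          norm_num
        rw [← this]
        ring
      nlinarith [sq_nonneg (W7A_u v m).2]
    have h3 : W7A_N (W7A_u v m) x y ≤ 25 := by
      unfold W7A_N
      rw [h0]
      have : (((W7A_u v m).2 : ℝ)) ^ 2 ≤ 25 := by exact_mod_cast h2
      push_cast
      linarith
    have h4 := (W7A_Rle _ x y hN h).2
    nlinarith
  · exact W7A_Ry _ h0 x y hy0 hN h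

/-- the final estimate for the value and the derivatives -/
theorem W7A_sum {ι : Type} [DecidableEq ι] (J : Finset ι) (P : ι → Prop) [DecidablePred P]
    (c a : ι → ℝ) (M : ℝ) (hc : ∀ j, |c j| ≤ 1) (ha : ∀ j, ¬ P j → a j = 0)
    (ha' : ∀ j ∈ J, P j → |a j| ≤ M) : |∑ j ∈ J, c j * a j| ≤ (J.filter P).card * M := by
  calc |∑ j ∈ J, c j * a j| ≤ ∑ j ∈ J, |c j * a j| := Finset.abs_sum_le_sum_abs _ _
    _ ≤ ∑ j ∈ J, (if P j then M else 0) := by
        refine Finset.sum_le_sum fun j hj => ?_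
        split_ifs with hP
        · rw [abs_mul]
          calc |c j| * |a j| ≤ 1 * M := mul_le_mul (hc j) (ha' j hj hP) (abs_nonneg _) (by norm_num)
            _ = M := one_mul M
        · rw [ha j hP, mul_zero, abs_zero]
    _ = (J.filter P).card * M := by
        rw [← Finset.sum_filter, Finset.sum_const, nsmul_eq_mul]

theorem W7A_sign (a b : ℝ) (hb : 0 < b) : Real.sign (a / b) = Real.sign a := by
  rcases lt_trichotomy a 0 with h | h | h
  · rw [Real.sign_of_neg h, Real.sign_of_neg (div_neg_of_neg_of_pos h hb)]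
  · rw [h, zero_div]
  · rw [Real.sign_of_pos h, Real.sign_of_pos (div_pos h hb)]

theorem W7A (hRH : RH_stmt) (hMH : MH_stmt) (hMG : MG_stmt) (hFV : FV_stmt) (hSCH : SCH_stmt)
    (hPJ : PJ_stmt) : W7A_stmt := by
  classical
  obtain ⟨Cs, hCs⟩ := hSCH 149 (by norm_num)
  have hfin := hFV 149 (149 * 149 + 25 * |Cs|) (by norm_num)
  refine ⟨1287658, by norm_num, hfin.toFinset, ?_⟩
  intro g B hg hB x y hy0 hx hxy v hv hv1
  have hE1 := W7A_E_lo
  have hE2 := W7A_E_hi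
  have hy : 4 / 5 < y := by
    have h1 : x ^ 2 ≤ 1 / 4 := by
      have := abs_le.1 hx
      nlinarith
    by_contra hcon
    push Not at hcon
    nlinarith
  have hB0 : 0 ≤ B := (abs_nonneg _).trans (hB 0 (by norm_num) 0)
  have hNv : 0 < W7A_N v x y := lt_of_lt_of_le (by positivity) (W7A_Nlow v hv1 x y)
  have hNu := W7A_upos hMG v hv hv1 x y hy0
  obtain ⟨J, c, hc1, hc2, hrep⟩ := W7A_rep hRH hMH hMG hFV g hg v hv hv1 x y hy
  obtain ⟨vx, vy, hvx, hvy, hv0, hvb⟩ := W7A_be_bd g hg B hB v x y hy0 hNv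
  choose ux uy hux huy hu0 hub using fun j : ℤ × Fin 4 =>
    W7A_be_bd g hg B hB (W7A_u v (W7A_m j)) x y hy0 (hNu (W7A_m j))
  -- the values
  have e0 : FF g v (5 / 2) x y = psi (XX v 0 1) * W7A_be g v x y +
      ∑ j ∈ J, c j * W7A_be g (W7A_u v (W7A_m j)) x y := hrep.self_of_nhds
  have ex : dX (FF g v) (5 / 2) x y = psi (XX v 0 1) * vx + ∑ j ∈ J, c j * ux j := by
    have t1 : Tendsto (fun t : ℝ => (t, y)) (𝓝 x) (𝓝 (x, y)) :=
      (Continuous.prodMk_left y).tendsto x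
    have t2 := t1.eventually hrep
    have t3 : (fun t => FF g v (5 / 2) t y) =ᶠ[𝓝 x] fun t => psi (XX v 0 1) * W7A_be g v t y +
        ∑ j ∈ J, c j * W7A_be g (W7A_u v (W7A_m j)) t y := t2
    unfold dX
    rw [t3.deriv_eq]
    refine HasDerivAt.deriv ?_
    exact (hvx.const_mul _).add (HasDerivAt.fun_sum fun j _ => (hux j).const_mul (c j))
  have ey : dY (FF g v) (5 / 2) x y = psi (XX v 0 1) * vy + ∑ j ∈ J, c j * uy j := by
    have t1 : Tendsto (fun t : ℝ => (x, t)) (𝓝 y) (𝓝 (x, y)) :=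
      (Continuous.prodMk_right x).tendsto y
    have t2 := t1.eventually hrep
    have t3 : (fun t => FF g v (5 / 2) x t) =ᶠ[𝓝 y] fun t => psi (XX v 0 1) * W7A_be g v x t +
        ∑ j ∈ J, c j * W7A_be g (W7A_u v (W7A_m j)) x t := t2
    unfold dY
    rw [t3.deriv_eq]
    refine HasDerivAt.deriv ?_
    exact (hvy.const_mul _).add (HasDerivAt.fun_sum fun j _ => (huy j).const_mul (c j))
  -- the bound for one term
  set M : ℝ := 22201 * B / y ^ 2 with hM
  have hM0 : 0 ≤ M := by positivity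
  have hb1 : y ≤ 149 → B ≤ M := by
    intro h
    rw [hM, le_div_iff₀ (by positivity)]
    nlinarith [mul_le_mul h h hy0.le (by norm_num : (0 : ℝ) ≤ 149)]
  have hb2 : y ≤ 149 → 10 * B / y ≤ M := by
    intro h
    rw [hM, div_le_div_iff₀ hy0 (by positivity)]
    nlinarith [mul_nonneg hB0 hy0.le, mul_le_mul_of_nonneg_left h (mul_nonneg hB0 hy0.le)]
  -- the number of relevant terms
  set P : ℤ × Fin 4 → Prop := fun j => W7A_R (W7A_u v (W7A_m j)) x y with hP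
  have hcard : ((J.filter P).card : ℝ) ≤ 57 := by
    rcases (J.filter P).eq_empty_or_nonempty with h | ⟨j0, hj0⟩
    · rw [h]
      norm_num
    · have h0 := (W7A_Rle _ x y (hNu _) (Finset.mem_filter.1 hj0).2).1
      have h1 : (J.filter P).card ≤
          (Finset.Icc (W7A_m j0 - 28) (W7A_m j0 + 28)).card := by
        refine Finset.card_le_card_of_injOn W7A_m ?_ W7A_m_inj.injOn
        intro j hj
        have h2 := (W7A_Rle _ x y (hNu _) (Finset.mem_filter.1 hj).2).1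
        have h3 := W7A_gap v hv1 x y hy _ _ h2 h0
        rw [abs_lt] at h3
        rw [Finset.coe_Icc, Set.mem_Icc]
        constructor <;> linarith
      rw [Int.card_Icc] at h1
      have h2 : (W7A_m j0 + 28 + 1 - (W7A_m j0 - 28)).toNat = 57 := by
        have : W7A_m j0 + 28 + 1 - (W7A_m j0 - 28) = 57 := by ring
        rw [this]
        rfl
      rw [h2] at h1
      exact_mod_cast h1
  have hpsi := hPJ.2.2.1 (XX v 0 1)
  have htot : ∀ (a0 : ℝ) (a : ℤ × Fin 4 → ℝ), (¬ W7A_R v x y → a0 = 0) →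
      (W7A_R v x y → |a0| ≤ M) → (∀ j, ¬ P j → a j = 0) → (∀ j ∈ J, P j → |a j| ≤ M) →
      |psi (XX v 0 1) * a0 + ∑ j ∈ J, c j * a j| ≤ 1287658 * B / y ^ 2 := by
    intro a0 a h1 h2 h3 h4
    have h5 := W7A_sum J P c a M hc1 h3 h4
    have h6 : |psi (XX v 0 1) * a0| ≤ M := by
      by_cases hR : W7A_R v x y
      · rw [abs_mul]
        calc |psi (XX v 0 1)| * |a0| ≤ 1 * M :=
              mul_le_mul hpsi (h2 hR) (abs_nonneg _) (by norm_num)
          _ = M := one_mul M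
      · rw [h1 hR, mul_zero, abs_zero]
        exact hM0
    calc |psi (XX v 0 1) * a0 + ∑ j ∈ J, c j * a j| ≤
          |psi (XX v 0 1) * a0| + |∑ j ∈ J, c j * a j| := abs_add_le _ _
      _ ≤ M + 57 * M := add_le_add h6 (h5.trans (mul_le_mul_of_nonneg_right hcard hM0))
      _ = 1287658 * B / y ^ 2 := by rw [hM]; ring
  have hyv : W7A_R v x y → y ≤ 149 := W7A_Ry v hv1 x y hy0 hNv
  have hyu : ∀ j, P j → y ≤ 149 := fun j hj => W7A_Ruy hMG v hv hv1 x y hy _ hj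
  refine ⟨?_, ?_, ?_, ?_⟩
  · rw [e0]
    exact htot _ _ (fun h => (hv0 h).1) (fun h => (hvb h).1.trans (hb1 (hyv h)))
      (fun j h => (hu0 j h).1) (fun j _ h => (hub j h).1.trans (hb1 (hyu j h)))
  · rw [ex]
    exact htot _ _ (fun h => (hv0 h).2.1) (fun h => (hvb h).2.1.trans (hb2 (hyv h)))
      (fun j h => (hu0 j h).2.1) (fun j _ h => (hub j h).2.1.trans (hb2 (hyu j h)))
  · rw [ey]
    exact htot _ _ (fun h => (hv0 h).2.2) (fun h => (hvb h).2.2.trans (hb2 (hyv h)))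
      (fun j h => (hu0 j h).2.2) (fun j _ h => (hub j h).2.2.trans (hb2 (hyu j h)))
  · intro hvT
    have hbx : y ≤ 149 → Bx 149 x y := by
      intro h
      refine ⟨hx.trans (by norm_num), ?_, h⟩
      linarith
    have hnot : ¬ (y ≤ 149 ∧ W7A_N v x y ≤ 149 * 149 + 25 * |Cs|) := by
      rintro ⟨h1, h2⟩
      apply hvT
      rw [Set.Finite.mem_toFinset]
      exact ⟨x, y, hbx h1, by rw [W7A_ip]; exact h2⟩
    have hRv : ¬ W7A_R v x y := by
      intro hR
      have h1 := hyv hR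
      have h2 := (W7A_Rle v x y hNv hR).1
      refine hnot ⟨h1, ?_⟩
      have h3 : W7A_E * y ≤ 149 * 149 := mul_le_mul hE2.le h1 hy0.le (by norm_num)
      have h4 := abs_nonneg Cs
      linarith
    have hRu : ∀ j, P j → c j = 0 := by
      intro j hj
      by_contra hcj
      have h1 := hyu j hj
      have h2 := hc2 j hcj
      have h3 : Real.sign (ip (W7A_u v (W7A_m j)) v 0 1) ≠
          Real.sign (ip (W7A_u v (W7A_m j)) v x y) := by
        intro heq
        apply h2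
        have p1 := hMG.2.2.1 v hv 0 1 (by norm_num)
        have p2 := hMG.2.2.1 v hv x y hy0
        have q1 := hMG.2.2.2.1 v hv 0 1 (by norm_num) (W7A_m j)
        have q2 := hMG.2.2.2.1 v hv x y hy0 (W7A_m j)
        rw [q1, q2, W7A_sign _ _ (by positivity), W7A_sign _ _ (by positivity)]
        exact heq
      have h4 := hCs (W7A_u v (W7A_m j)) v x y 0 1 (hbx h1) (by
        refine ⟨by norm_num, by norm_num, by norm_num⟩) h3.symm
      rw [W7A_dt hMG v hv, W7A_ip, W7A_ip] at h4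
      have h5 := (W7A_Rle _ x y (hNu _) hj).2
      have h6 : 1 ≤ W7A_N (W7A_u v (W7A_m j)) x y := by nlinarith
      refine hnot ⟨h1, ?_⟩
      have h7 : W7A_N v x y ≤ W7A_N (W7A_u v (W7A_m j)) x y * W7A_N v x y := by nlinarith
      have h8 := le_abs_self Cs
      push_cast at h4
      nlinarith
    have hz : ∀ (a0 : ℝ) (a : ℤ × Fin 4 → ℝ), a0 = 0 → (∀ j, ¬ P j → a j = 0) →
        psi (XX v 0 1) * a0 + ∑ j ∈ J, c j * a j = 0 := by
      intro a0 a h1 h2
      rw [h1, mul_zero, zero_add]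
      refine Finset.sum_eq_zero fun j _ => ?_
      by_cases hj : P j
      · rw [hRu j hj, zero_mul]
      · rw [h2 j hj, mul_zero]
    refine ⟨?_, ?_, ?_⟩
    · rw [e0]
      exact hz _ _ (hv0 hRv).1 fun j h => (hu0 j h).1
    · rw [ex]
      exact hz _ _ (hv0 hRv).2.1 fun j h => (hu0 j h).2.1
    · rw [ey]
      exact hz _ _ (hv0 hRv).2.2 fun j h => (hu0 j h).2.2

end

end SF
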